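import Pool.Agent.W907.SG.All

/-!
# `ℓ²`-homology above the middle dimension for full subcomplexes of flag spheres and manifolds

`Above n G` is a class of graphs whose flag complexes have dimension `n-1`: it is closed under suspension, edge
subdivision and, in odd dimensions `n - 1 = 2m+1`, it contains every flag complex all of whose vertex links are in
the class.  For every full subcomplex of such a complex the `ℓ²`-homology of the right-angled Coxeter group vanishes
in all degrees `> n/2`.
-/

namespace Pool.Agent.Results.MP_ea75ba_gt.FullSubcomplexesAboveMiddle

open Pool.Agent.W907.SG

/-- Vanishing above the middle for all full subcomplexes of the complexes in the class `Above n`. -/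
theorem result : ∀ (n : ℕ) (V : Type) (G : SimpleGraph V), Above n G →
    ∀ (A : Set V) [Fintype A] [LinearOrder A] (i : ℕ), n < 2 * i → L2Van (G.induce A) i :=
  fun n V G h A _ _ i hi => fin A (G.induce A) i (classB n V G h A i hi)

end Pool.Agent.Results.MP_ea75ba_gt.FullSubcomplexesAboveMiddle
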